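import Pool.Agent.H66.WC.Defs

/-!
# MP_307c8f_gt: more properties of the abstract system of 4-manifolds

`Known` (file `Pool.Agent.H66.WC.Defs`) is refined: the constants in the product formulas depend
only on the genus, the Euler numbers and the signatures, the constant in the theorem of Kronheimer
and Mrowka depends only on the degree, basic classes are characteristic, and the elliptic surfaces
`E(x)` are known. For smooth 4-manifolds with `b₁ = 0` and `b⁺ > 1` odd these are published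
theorems.
-/

set_option autoImplicit false

namespace Pool.Agent.H38.WC

open Pool.Agent.H66.WC

/-- a function of the genus, the Euler numbers and the signatures of two manifolds, without
zeros -/
def NonZero (κ : ℕ → ℤ → ℤ → ℤ → ℤ → ℚ) : Prop := ∀ g a b c d, κ g a b c d ≠ 0

/-- `W` is a connected sum of `X₁` and `X₂` along surfaces of genus `g` in the classes `S₁`, `S₂`
(as in `IsSum`); the constants in the product formulas are the values of `κD` and `κS` at the
genus, the Euler numbers and the signatures -/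
structure IsSumU (D : Sys) (κD κS : ℕ → ℤ → ℤ → ℤ → ℤ → ℚ) (g γ : ℕ) (X₁ X₂ : D.M)
    (S₁ : D.H X₁) (S₂ T : D.H X₂) (W : D.M) (S T' : D.H W) (j : D.H X₁ → D.H X₂ → D.H W) :
    Prop where
  euler : D.e W = D.e X₁ + D.e X₂ + 4 * (g - 1)
  sign : D.σ W = D.σ X₁ + D.σ X₂
  emb : D.emb W T' γ
  sq : D.Q W T' T' = D.Q X₂ T T
  meet : ∀ h₁ h₂, D.Q X₁ S₁ h₁ = D.Q X₂ S₂ h₂ → D.Q W T' (j h₁ h₂) = D.Q X₂ T h₂
  don : D.DST W → ∀ h₁ h₂, D.Q X₁ S₁ h₁ = D.Q X₂ S₂ h₂ → D.eD W S g (j h₁ h₂) =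
    κD g (D.e X₁) (D.σ X₁) (D.e X₂) (D.σ X₂) *
      (fac g (D.Q X₁ S₁ h₁) * (D.eD X₁ S₁ g h₁ * D.eD X₂ S₂ g h₂))
  sw : D.SST W → ∀ h₁ h₂, D.Q X₁ S₁ h₁ = D.Q X₂ S₂ h₂ → D.eS W S g (j h₁ h₂) =
    κS g (D.e X₁) (D.σ X₁) (D.e X₂) (D.σ X₂) *
      (fac g (D.Q X₁ S₁ h₁) * (D.eS X₁ S₁ g h₁ * D.eS X₂ S₂ g h₂))

/-- connected sums along surfaces of square zero exist, with product formulas whose constants
depend only on the genus, the Euler numbers and the signatures -/
def SumsU (D : Sys) : Prop := ∃ κD κS : ℕ → ℤ → ℤ → ℤ → ℤ → ℚ, NonZero κD ∧ NonZero κS ∧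
  ∀ (g γ : ℕ) (X₁ X₂ : D.M) (S₁ : D.H X₁) (S₂ T : D.H X₂), 1 ≤ g →
    D.emb X₁ S₁ g → D.dis X₂ S₂ g T γ → D.Fib X₁ S₁ → D.Fib X₂ S₂ → D.Simple X₁ → D.Simple X₂ →
    ∃ (W : D.M) (S T' : D.H W) (j : D.H X₁ → D.H X₂ → D.H W),
      IsSumU D κD κS g γ X₁ X₂ S₁ S₂ T W S T' j

/-- the theorem of Kronheimer and Mrowka; the constant in Witten's formula is the one of the
hypersurface of degree `d` -/
def KronheimerMrowkaU (D : Sys) : Prop := ∃ κ : ℕ → ℚ, (∀ d, κ d ≠ 0) ∧
  ∀ X S g (d : ℕ), D.Tight X S g → D.sph X → Even d → 6 ≤ d →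
    D.e X = d ^ 3 - 4 * d ^ 2 + 6 * d → 3 * D.σ X = -(d ^ 3 - 4 * d) →
      ∀ K, D.β X K = κ d * D.SW X K

/-- the elliptic surface `E(x)`, `x ≥ 2`: Euler number `12 x`, signature `-8 x`, simple type,
Witten's formula with the constant `2 ^ (2 - x)`, some basic class, and for every `g ≥ 1` a tight
surface of genus `g` in an odd class (in a nucleus `N(2)`) -/
def EllipticSurfaces (D : Sys) : Prop := ∀ x : ℕ, 2 ≤ x → ∃ X : D.M, D.e X = 12 * x ∧
  D.σ X = -(8 * x) ∧ D.Simple X ∧ (∀ K, D.β X K = (2 : ℚ) ^ (2 - (x : ℤ)) * D.SW X K) ∧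
  (∃ K, D.SW X K ≠ 0) ∧ ∀ g : ℕ, 1 ≤ g → ∃ S, D.Tight X S g ∧ D.Oddc X S

/-- basic classes are characteristic -/
def Characteristic (D : Sys) : Prop := ∀ X K, (D.DST X ∧ D.β X K ≠ 0) ∨ D.SW X K ≠ 0 →
  ∀ a, Even (D.Q X K a + D.Q X a a)

/-- simple type from the higher type adjunction inequalities (Munoz; Ozsvath and Szabo): a
manifold which contains an embedded surface of genus `g ≥ 1` and positive square `≥ 2 g - 5` is
of Donaldson and of Seiberg-Witten simple type -/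
def HigherSimple (D : Sys) : Prop := ∀ X S (g : ℕ), 1 ≤ g → D.emb X S g → 1 ≤ D.Q X S S →
  2 * (g : ℤ) - 5 ≤ D.Q X S S → D.Simple X

/-- The properties which are used. For closed oriented smooth 4-manifolds with `b₁ = 0` and
`b⁺ > 1` odd they are published theorems. -/
structure KnownU (D : Sys) : Prop where
  known : Known D
  bplus : ∀ X, 8 ≤ D.e X + D.σ X
  char : Characteristic D
  neg : ∀ X S g, D.emb X S g → D.emb X (-S) g
  higher : HigherSimple D
  sum : SumsU D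
  km : KronheimerMrowkaU D
  ell : EllipticSurfaces D

/-- the constant in the full form of Witten's conjecture -/
noncomputable def wc (D : Sys) (X : D.M) : ℚ := (2 : ℚ) ^ (2 + (7 * D.e X + 11 * D.σ X) / 4)

/-- the full form of Witten's conjecture for `X`: it is of Donaldson simple type, the basic
classes are the same, and Witten's formula holds with the constant `2 ^ (2 + (7 e + 11 σ) / 4)` -/
def WittenFull (D : Sys) (X : D.M) : Prop := D.DST X ∧ (∀ K, D.β X K ≠ 0 ↔ D.SW X K ≠ 0) ∧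
  ∀ w h, D.don X w h = wc D X * (Real.exp ((D.Q X h h : ℝ) / 2) *
    ∑ K ∈ (D.SW X).support, (D.SW X K : ℝ) *
      (-1 : ℝ) ^ ((D.Q X w w + D.Q X K w) / 2) * Real.exp (D.Q X K h))

/-- `K` is extremal: some embedded surface of genus `g ≥ 1` in a class `S` with `S² ≥ 1`, or with
`S² = 0` and `S w` odd for some `w`, has `|K S| + S² = 2 g - 2` -/
def Extremal (D : Sys) (X : D.M) (K : D.H X) : Prop := ∃ (S : D.H X) (g : ℕ), 1 ≤ g ∧
  D.emb X S g ∧ 0 ≤ D.Q X S S ∧ (1 ≤ D.Q X S S ∨ D.Oddc X S) ∧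
    |D.Q X K S| + D.Q X S S = 2 * g - 2

end Pool.Agent.H38.WC
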