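import Pool.Agent.H38.WC.Defs
import Pool.Agent.H66.WC.Proof

set_option autoImplicit false

open Finset

namespace Pool.Agent.H38.WC

open Pool.Agent.H66.WC

variable {D : Sys}

/-- the universal constant of a pairing -/
noncomputable def cc (κD κS : ℕ → ℤ → ℤ → ℤ → ℤ → ℚ) (κ : ℕ → ℚ) (g k : ℕ)
    (e₁ σ₁ e₂ σ₂ sd : ℤ) : ℚ :=
  κ (2 * k) * 2 ^ (σ₁ + σ₂ - sd).toNat * κS g e₁ σ₁ e₂ σ₂ / κD g e₁ σ₁ e₂ σ₂

theorem cc_ne {κD κS : ℕ → ℤ → ℤ → ℤ → ℤ → ℚ} {κ : ℕ → ℚ} (hD : NonZero κD) (hS : NonZero κS)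
    (hκ : ∀ d, κ d ≠ 0) (g k : ℕ) (e₁ σ₁ e₂ σ₂ sd : ℤ) :
    cc κD κS κ g k e₁ σ₁ e₂ σ₂ sd ≠ 0 :=
  div_ne_zero (mul_ne_zero (mul_ne_zero (hκ _) (by positivity)) (hS _ _ _ _ _)) (hD _ _ _ _ _)

/-- `SumsU` with given constants -/
def SumsC (D : Sys) (κD κS : ℕ → ℤ → ℤ → ℤ → ℤ → ℚ) : Prop :=
  ∀ (g γ : ℕ) (X₁ X₂ : D.M) (S₁ : D.H X₁) (S₂ T : D.H X₂), 1 ≤ g →
    D.emb X₁ S₁ g → D.dis X₂ S₂ g T γ → D.Fib X₁ S₁ → D.Fib X₂ S₂ → D.Simple X₁ → D.Simple X₂ →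
    ∃ (W : D.M) (S T' : D.H W) (j : D.H X₁ → D.H X₂ → D.H W),
      IsSumU D κD κS g γ X₁ X₂ S₁ S₂ T W S T' j

/-- `KronheimerMrowkaU` with given constants -/
def KMC (D : Sys) (κ : ℕ → ℚ) : Prop := ∀ X S g (d : ℕ), D.Tight X S g → D.sph X → Even d →
  6 ≤ d → D.e X = d ^ 3 - 4 * d ^ 2 + 6 * d → 3 * D.σ X = -(d ^ 3 - 4 * d) →
    ∀ K, D.β X K = κ d * D.SW X K

/-- the sum has the numbers of a blow-down of a hypersurface: the extremal parts of the summands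
satisfy Witten's formula together, with a universal constant -/
theorem pairingU (A : Known D) {κD κS : ℕ → ℤ → ℤ → ℤ → ℤ → ℚ} {κ : ℕ → ℚ} (hκD : NonZero κD)
    (hsums : SumsC D κD κS) (hκ : ∀ d, κ d ≠ 0) (hkm : KMC D κ)
    {X₁ X₂ : D.M} {S₁ : D.H X₁} {S₂ T : D.H X₂} {g : ℕ} (hg : 1 ≤ g)
    (he : D.emb X₁ S₁ g) (hd : D.dis X₂ S₂ g T 1) (h1 : D.Q X₁ S₁ S₁ = 0)
    (h2 : D.Q X₂ S₂ S₂ = 0) (hT : D.Q X₂ T T = 0) (ho1 : D.Oddc X₁ S₁) (ho2 : D.Oddc X₂ S₂)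
    (hD1 : D.DST X₁) (hD2 : D.DST X₂) (hS1 : D.SST X₁) (hS2 : D.SST X₂)
    (hb : ∃ b, D.Q X₂ T b ≠ 0 ∧ D.Q X₂ S₂ b = 0) {k : ℕ} {ed sd : ℤ} (hk : 3 ≤ k)
    (hH : HN k ed sd)
    (hsum : D.e X₁ + D.e X₂ + 4 * (g - 1) + (D.σ X₁ + D.σ X₂) = ed + sd)
    (hsl : 2 * ed + 3 * sd + 1 ≤
      2 * (D.e X₁ + D.e X₂ + 4 * (g - 1)) + 3 * (D.σ X₁ + D.σ X₂)) :
    ∀ a₁ a₂, D.Q X₁ S₁ a₁ = D.Q X₂ S₂ a₂ → D.Q X₁ S₁ a₁ ≠ 0 →
      D.eD X₁ S₁ g a₁ * D.eD X₂ S₂ g a₂ =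
        cc κD κS κ g k (D.e X₁) (D.σ X₁) (D.e X₂) (D.σ X₂) sd *
          (D.eS X₁ S₁ g a₁ * D.eS X₂ S₂ g a₂) := by
  obtain ⟨W, SW', T', j, ⟨w1, w2, t1, t2, t3, w4, w5⟩⟩ :=
    hsums g 1 X₁ X₂ S₁ S₂ T hg he hd ⟨h1, ho1⟩ ⟨h2, ho2⟩ ⟨hD1, hS1⟩ ⟨hD2, hS2⟩
  obtain ⟨b, hb1, hb2⟩ := hb
  have hT' : T' ≠ 0 := by
    rintro rfl
    have h := t3 0 b (by rw [qzr A, hb2])
    rw [qzl A] at h
    exact hb1 h.symm
  have htW : D.Tight W T' 1 := ⟨le_rfl, t1, by rw [t2, hT]; norm_num, hT'⟩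
  have hDW := (A.tight W T' 1 htW).1
  have hSW' := (A.tight W T' 1 htW).2
  -- blow up to the numbers of a hypersurface
  obtain ⟨m, hm⟩ : ∃ m : ℕ, D.σ W - sd = m := by
    refine ⟨(D.σ W - sd).toNat, ?_⟩
    have : 0 ≤ D.σ W - sd := by rw [w2]; linarith
    omega
  have hm' : (D.σ X₁ + D.σ X₂ - sd).toNat = m := by
    rw [← w2, hm, Int.toNat_natCast]
  have hm1 : 1 ≤ m := by
    have : (1 : ℤ) ≤ m := by rw [← hm, w2]; linarith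
    exact_mod_cast this
  obtain ⟨V, l, F, -, v1, v2, v3, v4, v5, v6, -, v7, v8, v9⟩ := blown A W m
  obtain ⟨hDV, vβ⟩ := v8 hDW
  obtain ⟨hSV, vS⟩ := v9 hSW'
  have htV : D.Tight V (l T') 1 := by
    refine ⟨le_rfl, (v7 T' 1 t1).1, by rw [v1, t2, hT]; norm_num, fun h => hT' ?_⟩
    apply A.forms.2.2.1 W
    intro a
    rw [← v1, h, qzl A]
  have hpV : ∀ K, D.β V K = κ (2 * k) * D.SW V K := by
    refine hkm V (l T') 1 (2 * k) htV (v6 hm1) (even_two_mul k) (by omega) ?_ ?_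
    · rw [v4, ← hm, w1, w2]
      push_cast
      linarith [hH.1]
    · rw [v5, ← hm]
      push_cast
      linarith [hH.2]
  have hpW : ∀ K, D.β W K = (κ (2 * k) * 2 ^ m) * D.SW W K := by
    intro K
    have h10 := hpV (l K + F)
    rw [vβ, vS] at h10
    rw [div_eq_iff (by positivity)] at h10
    rw [h10]; ring
  have hcW : κ (2 * k) * 2 ^ m ≠ 0 := mul_ne_zero (hκ _) (by positivity)
  intro a₁ a₂ ha ha0
  have q1 := w4 hDW a₁ a₂ ha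
  have q2 := w5 hSW' a₁ a₂ ha
  rw [eD_prop hcW hpW, q2] at q1
  have hf : fac g (D.Q X₁ S₁ a₁) ≠ 0 := fac_ne (Or.inr ha0)
  have hCR : (κD g (D.e X₁) (D.σ X₁) (D.e X₂) (D.σ X₂) : ℝ) ≠ 0 := by exact_mod_cast hκD _ _ _ _ _
  unfold cc
  rw [hm']
  push_cast at q1 ⊢
  rw [div_mul_eq_mul_div, eq_div_iff hCR]
  apply mul_right_cancel₀ hf
  linear_combination -q1

/-- surfaces of square zero: the constant depends only on the genus, the Euler number and the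
signature -/
theorem univ0 (A : KnownU D) (g : ℕ) (hg : 1 ≤ g) (e σ : ℤ) (h4 : (4 : ℤ) ∣ e + σ) :
    ∃ c : ℚ, c ≠ 0 ∧ ∀ (Y : D.M) (S : D.H Y), D.e Y = e → D.σ Y = σ → D.emb Y S g → D.Fib Y S →
      D.Simple Y → ∀ K, D.Q Y K S = 2 * g - 2 → D.β Y K = c * D.SW Y K := by
  have A' := A.known
  obtain ⟨κD, κS, hκD, hκS, hsums⟩ := A.sum
  obtain ⟨κ, hκ, hkm⟩ := A.km
  have hsums' : SumsC D κD κS := hsums
  have hkm' : KMC D κ := hkm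
  obtain ⟨N₀, hN₀⟩ := A'.slope g hg
  obtain ⟨N₁, hN₁⟩ := A'.ell g hg
  obtain ⟨k, N, N', ed, sd, ed', sd', hk3, hH, hH', hNN, hNN', h4N, h4N', hcc, hcc'⟩ :=
    numbers e σ N₀ N₁ g h4
  obtain ⟨Z, SZ, T, ⟨hDZ, hSZ⟩, hz1, hz2, hdZ, ⟨hqZ, hoZ⟩, hqT, hb, hne⟩ := hN₀ N hNN
  obtain ⟨U, SU, hWU, hSU, hu1, hu2, heU, ⟨hqU, hoU⟩, hneU⟩ := hN₁ N' hNN'
  obtain ⟨cU, hcU, hpU⟩ := prop_of_witten A' hWU
  have hp₁ := pairingU A' hκD hsums' hκ hkm' hg heU hdZ hqU hqZ hqT hoU hoZ hWU.1 hDZ hSU hSZ hb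
    (by omega : 3 ≤ k + 1) hH' (by linarith) (by linarith)
  set c₁ := cc κD κS κ g (k + 1) (D.e U) (D.σ U) (D.e Z) (D.σ Z) sd' with hc1
  have hc₁ : c₁ ≠ 0 := cc_ne hκD hκS hκ _ _ _ _ _ _ _
  set c₂ := cc κD κS κ g k e σ (D.e Z) (D.σ Z) sd with hc2
  have hc₂ : c₂ ≠ 0 := cc_ne hκD hκS hκ _ _ _ _ _ _ _
  have hUR : (cU : ℝ) ≠ 0 := by exact_mod_cast hcU
  have h1R : (c₁ : ℝ) ≠ 0 := by exact_mod_cast hc₁
  have h2R : (c₂ : ℝ) ≠ 0 := by exact_mod_cast hc₂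
  have hZ : ∀ a, D.Q Z SZ a ≠ 0 → D.eD Z SZ g a = (c₁ / cU : ℝ) * D.eS Z SZ g a := by
    intro a ha
    obtain ⟨a2, ha2, hnz⟩ := hneU (D.Q Z SZ a) ha
    have q1 := hp₁ a2 a ha2 (by rw [ha2]; exact ha)
    rw [eD_prop hcU hpU] at q1
    rw [div_mul_eq_mul_div, eq_div_iff hUR]
    apply mul_right_cancel₀ hnz
    linear_combination q1
  refine ⟨c₂ / (c₁ / cU), div_ne_zero hc₂ (div_ne_zero hc₁ hcU), ?_⟩
  intro Y S hYe hYσ heY ⟨hqY, hoY⟩ ⟨hDY, hWY⟩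
  have hS0 : S ≠ 0 := by
    rintro rfl
    obtain ⟨w, hw⟩ := hoY
    rw [qzr A'] at hw
    exact absurd hw (by decide)
  have hp₂ := pairingU A' hκD hsums' hκ hkm' hg heY hdZ hqY hqZ hqT hoY hoZ hDY hDZ hWY hSZ hb
    hk3 hH (by rw [hYe, hYσ]; linarith) (by rw [hYe, hYσ]; linarith)
  rw [hYe, hYσ, ← hc2] at hp₂
  refine coef_of_ext A' hS0 ?_
  intro a ha
  obtain ⟨a2, ha2, hnz⟩ := hne (D.Q Y S a) ha
  have q1 := hp₂ a a2 ha2.symm ha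
  rw [hZ a2 (by rw [ha2]; exact ha)] at q1
  push_cast
  rw [div_mul_eq_mul_div, eq_div_iff (div_ne_zero h1R hUR)]
  apply mul_right_cancel₀ hnz
  linear_combination q1

/-- blow up the surface to square zero and `m` further points -/
theorem red (A : Known D) (X : D.M) (S : D.H X) (g : ℕ) (he : D.emb X S g) (s : ℕ)
    (hs : D.Q X S S = s) (hodd : 1 ≤ D.Q X S S ∨ D.Oddc X S) (hX : D.Simple X) (m : ℕ) :
    ∃ (Y : D.M) (S' : D.H Y) (f : D.H X → D.H Y), D.e Y = D.e X + s + m ∧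
      D.σ Y = D.σ X - s - m ∧ D.emb Y S' g ∧ D.Fib Y S' ∧ D.Simple Y ∧
      (∀ K, D.Q Y (f K) S' = D.Q X K S + D.Q X S S) ∧
      (∀ K, D.β Y (f K) = D.β X K / 2 ^ (s + m)) ∧ ∀ K, D.SW Y (f K) = D.SW X K := by
  obtain ⟨Y, i, E, -, h1, h2, h3, h4, h5, -, h6, h7, h8, h9⟩ := blown A X s
  obtain ⟨hDY, hβ⟩ := h8 hX.1
  obtain ⟨hWY, hSW⟩ := h9 hX.2
  obtain ⟨V, l, F, -, v1, v2, v3, v4, v5, -, -, v7, v8, v9⟩ := blown A Y m
  obtain ⟨hDV, vβ⟩ := v8 hDY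
  obtain ⟨hSV, vS⟩ := v9 hWY
  have h2' : ∀ a, D.Q Y E (i a) = 0 := fun a => by rw [A.forms.1, h2]
  have v2' : ∀ a, D.Q V F (l a) = 0 := fun a => by rw [A.forms.1, v2]
  have hq : D.Q Y (i S - E) (i S - E) = 0 := by
    rw [qsubr A, qsubl A, qsubl A, h1, h2, h2', h3, hs]
    ring
  refine ⟨V, l (i S - E), fun K => l (i K + E) + F, ?_, ?_, (v7 _ g (h7 S g he).2).1, ⟨?_, ?_⟩,
    ⟨hDV, hSV⟩, ?_, ?_, ?_⟩
  · rw [v4, h4]
  · rw [v5, h5]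
  · rw [v1, hq]
  · rcases hodd with hodd | ⟨w, hw⟩
    · obtain ⟨w, w1, w2⟩ := h6 (by omega)
      refine ⟨l w, ?_⟩
      rw [v1, qsubr A, w1, w2]
      decide
    · refine ⟨l (i w), ?_⟩
      rw [v1, qsubr A, h1, h2, sub_zero]
      exact hw
  · intro K
    rw [qaddl A, v2', add_zero, v1, qsubr A, qaddl A, qaddl A, h1, h2, h2', h3, hs]
    ring
  · intro K
    rw [vβ, hβ, div_div, pow_add]
  · intro K
    rw [vS, hSW]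

theorem coef_pos (A : KnownU D) (X : D.M) (hX : D.Simple X) (S : D.H X) (g : ℕ) (hg : 1 ≤ g)
    (he : D.emb X S g) (hn : 0 ≤ D.Q X S S) (hodd : 1 ≤ D.Q X S S ∨ D.Oddc X S) (K : D.H X)
    (hK : D.Q X K S + D.Q X S S = 2 * g - 2) : D.β X K = wc D X * D.SW X K := by
  have A' := A.known
  obtain ⟨x, hx⟩ : ∃ x : ℕ, D.e X + D.σ X = 4 * x := by
    obtain ⟨y, hy⟩ := A'.forms.2.2.2 X
    have := A.bplus X
    exact ⟨y.toNat, by omega⟩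
  have hx2 : 2 ≤ x := by
    have := A.bplus X
    omega
  obtain ⟨X₀, he₀, hσ₀, hX₀, hβ₀, ⟨K₀, hK₀⟩, hT₀⟩ := A.ell x hx2
  obtain ⟨S₀, hS₀, hodd₀⟩ := hT₀ g hg
  obtain ⟨s, hs⟩ : ∃ s : ℕ, D.Q X S S = s := ⟨(D.Q X S S).toNat, by omega⟩
  have hs₀ : D.Q X₀ S₀ S₀ = (2 * g - 2 : ℕ) := by
    rw [hS₀.2.2.1]; omega
  -- numbers of blow-ups
  obtain ⟨m, m₀, hm⟩ : ∃ m m₀ : ℕ, (s : ℤ) + m + D.e X = (2 * g - 2 : ℕ) + m₀ + 12 * x :=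
    ⟨((2 * g - 2 : ℕ) + 12 * x - s - D.e X : ℤ).toNat,
      (-((2 * g - 2 : ℕ) + 12 * x - s - D.e X : ℤ)).toNat, by omega⟩
  obtain ⟨Y, S', f, y1, y2, y3, y4, y5, y6, y7, y8⟩ := red A' X S g he s hs hodd hX m
  obtain ⟨Y₀, S₀', f₀, z1, z2, z3, z4, z5, z6, z7, z8⟩ := red A' X₀ S₀ g hS₀.2.1 (2 * g - 2) hs₀
    (Or.inr hodd₀) hX₀ m₀
  obtain ⟨c, hc, hu⟩ := univ0 A g hg (D.e Y) (D.σ Y) (A'.forms.2.2.2 Y)
  have hnn : (0 : ℤ) ≤ D.Q X₀ S₀ S₀ := by rw [hs₀]; positivity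
  -- the constant
  have hK₀0 : D.Q X₀ K₀ S₀ = 0 := by
    have := A'.adj X₀ S₀ g hg hS₀.2.1 hS₀.2.2.2 hnn K₀ (Or.inr hK₀)
    rw [hS₀.2.2.1] at this
    have h2 : |D.Q X₀ K₀ S₀| ≤ 0 := by linarith
    exact abs_eq_zero.1 (le_antisymm h2 (abs_nonneg _))
  have q1 := hu Y₀ S₀' (by rw [z1, y1, he₀]; omega) (by rw [z2, y2, hσ₀]; omega) z3 z4 z5 (f₀ K₀)
    (by rw [z6, hK₀0, hS₀.2.2.1, zero_add])
  rw [z7, z8, hβ₀] at q1
  have hKq : (D.SW X₀ K₀ : ℚ) ≠ 0 := by exact_mod_cast hK₀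
  have hcv : c = (2 : ℚ) ^ (2 - (x : ℤ)) / 2 ^ (2 * g - 2 + m₀) := by
    apply mul_right_cancel₀ hKq
    rw [← q1]
    ring
  have q2 := hu Y S' rfl rfl y3 y4 y5 (f K) (by rw [y6, hK])
  rw [y7, y8, hcv] at q2
  have h2 : (2 : ℚ) ≠ 0 := two_ne_zero
  have hw : wc D X = (2 : ℚ) ^ (2 - (x : ℤ)) / 2 ^ (2 * g - 2 + m₀) * 2 ^ (s + m) := by
    unfold wc
    rw [← zpow_natCast, ← zpow_natCast, ← zpow_sub₀ h2, ← zpow_add₀ h2]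
    congr 1
    push_cast
    have h7 : 7 * D.e X + 11 * D.σ X = 4 * (11 * x - D.e X) := by linarith
    rw [h7, Int.mul_ediv_cancel_left _ (by norm_num)]
    have h8 : ((2 * g - 2 : ℕ) : ℤ) = 2 * g - 2 := by omega
    rw [h8] at hm ⊢
    linarith
  rw [hw]
  have h3 : (2 : ℚ) ^ (s + m) ≠ 0 := by positivity
  rw [div_eq_iff h3] at q2
  rw [q2]
  ring

theorem qneg (A : Known D) (X : D.M) (a b : D.H X) : D.Q X a (-b) = -D.Q X a b := by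
  have h := qaddr A X a b (-b)
  rw [add_neg_cancel, qzr A] at h
  linarith

theorem coef (A : KnownU D) (X : D.M) (hX : D.Simple X) (K : D.H X) (hK : Extremal D X K) :
    D.β X K = wc D X * D.SW X K := by
  have A' := A.known
  obtain ⟨S, g, hg, he, hn, hodd, h⟩ := hK
  rcases abs_cases (D.Q X K S) with ⟨h1, -⟩ | ⟨h1, -⟩
  · exact coef_pos A X hX S g hg he hn hodd K (by rw [← h1]; exact h)
  · have hq : D.Q X (-S) (-S) = D.Q X S S := by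
      rw [qneg A', A'.forms.1, qneg A', neg_neg]
    refine coef_pos A X hX (-S) g hg (A.neg X S g he) (by rw [hq]; exact hn) ?_ K ?_
    · rw [hq]
      rcases hodd with hodd | ⟨w, hw⟩
      · exact Or.inl hodd
      · exact Or.inr ⟨w, by rw [qneg A']; exact hw.neg⟩
    · rw [hq, qneg A', ← h1]
      exact h

theorem full_of_coef (A : KnownU D) {X : D.M} (h1 : D.DST X)
    (h : ∀ K, D.β X K = wc D X * D.SW X K) : WittenFull D X := by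
  have hc : wc D X ≠ 0 := by unfold wc; positivity
  have hiff : ∀ K, D.β X K ≠ 0 ↔ D.SW X K ≠ 0 := by
    intro K
    rw [h K]
    constructor
    · intro h2 h3
      exact h2 (by rw [h3, Int.cast_zero, mul_zero])
    · intro h2
      exact mul_ne_zero hc (Int.cast_ne_zero.2 h2)
  refine ⟨h1, hiff, fun w b => ?_⟩
  rw [A.known.str X h1 w b, mul_left_comm]
  congr 1
  have hs : (D.β X).support = (D.SW X).support := by
    ext K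
    rw [Finsupp.mem_support_iff, Finsupp.mem_support_iff]
    exact hiff K
  rw [hs, Finset.mul_sum]
  refine Finset.sum_congr rfl fun K _ => ?_
  rw [h K]
  push_cast
  ring

theorem main (A : KnownU D) (X : D.M) (hX : D.Simple X) :
    (∀ K, Extremal D X K → D.β X K = wc D X * D.SW X K) ∧
    ((∀ K, D.β X K ≠ 0 ∨ D.SW X K ≠ 0 → Extremal D X K) → WittenFull D X) := by
  refine ⟨coef A X hX, fun h => full_of_coef A hX.1 fun K => ?_⟩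
  by_cases hK : D.β X K ≠ 0 ∨ D.SW X K ≠ 0
  · exact coef A X hX K (h K hK)
  · rw [not_or, not_not, not_not] at hK
    rw [hK.1, hK.2, Int.cast_zero, mul_zero]

theorem almost (A : KnownU D) (X : D.M) (S U : D.H X) (g m : ℕ) (hg : 1 ≤ g) (hm1 : 1 ≤ m)
    (hm3 : m ≤ 3) (he : D.emb X S g) (hSU : S = m • U) (hU : Odd (D.Q X U U))
    (hq : D.Q X S S = 2 * g - 2 - m) (hpos : 1 ≤ D.Q X S S) : WittenFull D X := by
  have A' := A.known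
  have hX : D.Simple X := A.higher X S g hg he hpos (by rw [hq]; omega)
  have hS0 : S ≠ 0 := by
    rintro rfl
    rw [qzr A'] at hpos
    omega
  refine (main A X hX).2 fun K hK => ⟨S, g, hg, he, by omega, Or.inl hpos, ?_⟩
  have hb : (D.DST X ∧ D.β X K ≠ 0) ∨ D.SW X K ≠ 0 := by
    rcases hK with hK | hK
    · exact Or.inl ⟨hX.1, hK⟩
    · exact Or.inr hK
  have h1 := A'.adj X S g hg he hS0 (by omega) K hb
  have h2 : Odd (D.Q X K U) := by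
    have h3 := A.char X K hb U
    rw [Int.even_add] at h3
    rw [← Int.not_even_iff_odd] at hU ⊢
    exact fun h4 => hU (h3.1 h4)
  have h3 : D.Q X K S = m * D.Q X K U := by rw [hSU, qsmulr A']
  have h4 : (1 : ℤ) ≤ |D.Q X K U| := by
    have : D.Q X K U ≠ 0 := by
      intro h0
      rw [h0] at h2
      exact absurd h2 (by decide)
    exact Int.one_le_abs this
  have h5 : (m : ℤ) ≤ |D.Q X K S| := by
    rw [h3, abs_mul, Nat.abs_cast]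
    nlinarith
  rw [hq] at h1 ⊢
  omega

end Pool.Agent.H38.WC
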